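import Pool.Agent.R893.LR.Catch

/-!
# MP_241ca8_al: the catchment set of limit roots need not be closed
-/

namespace Pool.Agent.Results.MP_241ca8_al.NotClosed

open Pool.Agent.R893.LR

/-- **The answer is negative**: there is a Lorentzian Coxeter system whose catchment set `F_Φ` is
not closed in the projective space. (The system is the universal Coxeter system of rank three with
all `B_{st} = -1`.) -/
theorem result : ∃ (n : ℕ) (C : GeomCoxeter n), C.Lorentzian ∧ ¬ IsClosed C.FPhi :=
  ⟨3, tri, tri_lorentzian, not_closed⟩

end Pool.Agent.Results.MP_241ca8_al.NotClosed
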